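import Mathlib
import Pool.Agent.MP_a421c2_co.Ex.Leak
import Pool.Agent.MP_a421c2_co.Ex.Net
import Pool.Agent.MP_a421c2_co.Ex.Cell

/-!
# The exact total side length of squares packed in a unit square, near squares of the same parity
-/

namespace Pool.Agent.Results.MP_a421c2_co.ExactRange

open Pool.Agent.MP_a421c2_co Pool.Agent.MP_a421c2_co.Ex

theorem result : ∃ δ : ℝ, 0 < δ ∧ ∀ (K : ℕ) (c : ℤ) (r : ℕ), |c| < K →
    (K : ℝ) - |(c : ℝ)| ≤ δ * K → (r : ℤ) = K ^ 2 + 2 * c + 1 → f r = K + c / K :=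
  main_of (core_of (tilt_of win_of) shear_of rect_of area_of cell_of grid_of leak_of)
    (net_of hodge_of round_of)

end Pool.Agent.Results.MP_a421c2_co.ExactRange
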