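import Pool.Agent.MP_a421c2_co.Gap.Order

/-!
# The order of the gap between the square root and the total side length of packed squares
-/

namespace Pool.Agent.Results.MP_a421c2_co.GapOrder

open Pool.Agent.MP_a421c2_co

theorem result : ∃ η : ℝ, 0 < η ∧ ∀ (K : ℕ) (c : ℤ) (r : ℕ), |c| < K →
    (r : ℤ) = K ^ 2 + 2 * c + 1 → f r ≤ √(r : ℝ) - η * (1 - |(c : ℝ)| / K) / K :=
  Gap.order

end Pool.Agent.Results.MP_a421c2_co.GapOrder
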