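import Mathlib
import Pool.Agent.MP_a421c2_co.Diamond

/-!
# A lower bound for the total side length of squares packed in a unit square
-/

namespace Pool.Agent.Results.MP_a421c2_co.TiltedGain

open Pool.Agent.MP_a421c2_co

theorem result (K : ℕ) (c : ℤ) (r : ℕ) (hK : 75 ≤ K) (hc : 20 * |c| ≤ K)
    (hr : (r : ℤ) = K ^ 2 + 2 * c + 1) :
    (K : ℝ) + c / K + (1 / √2 - 2 / 3 - (|(c : ℝ)| + 3) / K) / K ≤ f r := by
  rw [show 1 / √2 = √2 / 2 by
    rw [div_eq_div_iff (by positivity) (by norm_num), Real.mul_self_sqrt] <;> norm_num]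
  obtain ⟨d, rfl | rfl⟩ := c.eq_nat_or_neg
  · rw [Nat.abs_cast] at hc
    obtain ⟨k, rfl⟩ : ∃ k, K = k + d := ⟨K - d, by omega⟩
    obtain rfl : r = (k + d) ^ 2 + 2 * d + 1 := by exact_mod_cast hr
    simpa using bound_pos k d hK (by exact_mod_cast hc)
  · rw [abs_neg, Nat.abs_cast] at hc
    obtain ⟨k, rfl⟩ : ∃ k, K = k + d := ⟨K - d, by omega⟩
    have := bound_neg k d hK (by exact_mod_cast hc) r (by zify; push_cast at hr; linarith)
    simpa [neg_div, sub_eq_add_neg] using this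

end Pool.Agent.Results.MP_a421c2_co.TiltedGain
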